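import Pool.Agent.Q105.ThreshDim

set_option autoImplicit false

/-!
# The threshold number is unbounded on graphs whose complement has threshold dimension two
-/

open Q105.Thresh

namespace Pool.Agent.Results.MP_9c4245_co.Unbounded

/-- For every `C` there is a finite graph `G` with `t(Gᶜ) = 2` that is `k`-threshold for no
`k ≤ C`. -/
theorem result : ∀ C : ℕ, ∃ (V : Type) (_ : Finite V) (G : SimpleGraph V),
    thresholdDim Gᶜ = 2 ∧ ∀ k ≤ C, ¬ IsKThr k G := by
  intro C
  refine ⟨_, inferInstance, GI (2 * C + 5), dim_eq_two _ (by omega), fun k hk => ?_⟩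
  exact GI_not _ k (by omega) (by omega)

end Pool.Agent.Results.MP_9c4245_co.Unbounded
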